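import Mathlib

namespace Pool.Agent.MP_74fd1e_al

variable {d : ℕ} {V : Type} [AddCommGroup V] [Module ℝ V]

/-- `θ 0, …, θ d` are mutually distinct eigenvalues of `A` and `E i` is the primitive idempotent
of `A` for `θ i`: it is the identity on the eigenspace of `θ i` and zero on the other ones. -/
def IsIdempotentOrdering (A : Module.End ℝ V) (θ : Fin (d + 1) → ℝ)
    (E : Fin (d + 1) → Module.End ℝ V) : Prop :=
  Function.Injective θ ∧ (∀ i, A.HasEigenvalue (θ i)) ∧
    ∀ i j, ∀ v ∈ A.eigenspace (θ j), E i v = if i = j then v else 0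

/-- `E i X E j` is zero if `|i - j| > 1` and nonzero if `|i - j| = 1`. -/
def ActsTridiagonally (X : Module.End ℝ V) (E : Fin (d + 1) → Module.End ℝ V) : Prop :=
  ∀ i j : Fin (d + 1), (1 < |(i : ℤ) - (j : ℤ)| → E i * X * E j = 0) ∧
    (|(i : ℤ) - (j : ℤ)| = 1 → E i * X * E j ≠ 0)

/-- `(A; A'; E; E')` is a Leonard system with eigenvalue sequence `θ` and dual eigenvalue
sequence `θ'`. -/
def IsLeonardSystem (A A' : Module.End ℝ V) (E E' : Fin (d + 1) → Module.End ℝ V)
    (θ θ' : Fin (d + 1) → ℝ) : Prop :=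
  IsIdempotentOrdering A θ E ∧ IsIdempotentOrdering A' θ' E' ∧
    ActsTridiagonally A' E ∧ ActsTridiagonally A E'

/-- The distance from `x` to the nearest multiple of `N`. -/
def distMultiple (N x : ℕ) : ℕ := min (x % N) (N - x % N)

end Pool.Agent.MP_74fd1e_al
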